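import Pool.Agent.H15.FamExit

/-!
# [T2] The spanning frame lemma (MP_19149c_co, `n(k, k+2) = 3k + 2`)

`v` cosimple with two disjoint spanning sets of indices. There is a signed vector `(A, B)` with `A` a basis of the
whole space, `B` independent, and every `v i`, `i ∉ A`, in the span `L` of `B`: so the elements outside `L` are independent.
-/

set_option autoImplicit false
set_option linter.unusedSectionVars false

namespace Pool.Agent.H97.DV

open Module Submodule H15

variable {ι : Type*} [Fintype ι] {E : Type*} [AddCommGroup E] [Module ℝ E]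
  [FiniteDimensional ℝ E]
variable {v : ι → E}

/-- a strictly positive dependency of a cosimple family which is not zero gives one with exactly one negative element -/
theorem exists_one_neg {E' : Type*} [AddCommGroup E'] [Module ℝ E'] [FiniteDimensional ℝ E'] {w : ι → E'}
    (hc : Cosimple w) (hne : ∃ i, w i ≠ 0) (hpos : SVec w Set.univ ∅) :
    ∃ t, w t ≠ 0 ∧ SVec w {i | w i ≠ 0 ∧ i ≠ t} {t} := by
  classical
  obtain ⟨c, hc0, hc1, -⟩ := hpos
  have hcp : ∀ i, 0 < c i := fun i => (hc1 i).2 trivial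
  let Φ : (ι → ℝ) →ₗ[ℝ] E' := ∑ i, (LinearMap.proj i : (ι → ℝ) →ₗ[ℝ] ℝ).smulRight (w i)
  have hΦ : ∀ a : ι → ℝ, Φ a = ∑ i, a i • w i := by
    intro a
    simp [Φ, LinearMap.sum_apply]
  let V := LinearMap.ker Φ
  have hV : ∀ a : ι → ℝ, a ∈ V ↔ ∑ i, a i • w i = 0 := by
    intro a
    rw [LinearMap.mem_ker, hΦ]
  let κ := {i : ι // w i ≠ 0}
  let s : κ → (V →ₗ[ℝ] ℝ) := fun i => (LinearMap.proj i.1 : (ι → ℝ) →ₗ[ℝ] ℝ).comp V.subtype
  have hs : ∀ (i : κ) (x : V), s i x = (x : ι → ℝ) i.1 := fun i x => rfl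
  have hcV : c ∈ V := (hV c).2 hc0
  obtain ⟨i0, hi0⟩ := hne
  obtain ⟨y, h1, ⟨⟨t, ht⟩, h2⟩, h3, h4⟩ := exists_exit s ⟨c, hcV⟩ (-⟨c, hcV⟩)
    (fun i => hcp i.1) ⟨⟨i0, hi0⟩, by
      rw [map_neg, hs]
      exact neg_lt_zero.2 (hcp i0)⟩
  have hyt : (y : ι → ℝ) t = 0 := h2
  -- the zero class is a singleton
  have huniq : ∀ j : ι, w j ≠ 0 → j ≠ t → 0 < (y : ι → ℝ) j := by
    intro j hj hjt
    refine lt_of_le_of_ne (h1 ⟨j, hj⟩) fun heq => ?_
    have h5 := h4 ⟨t, ht⟩ ⟨j, hj⟩ h2 heq.symm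
    have h6 : w t ∈ sp w ({t, j}ᶜ) := by rw [hc t j]; trivial
    obtain ⟨a, ha, has⟩ := mem_sp_iff.1 h6
    have hat : a t = 0 := ha t (by simp)
    have haj : a j = 0 := ha j (by simp)
    have hx : (fun i => a i - (if i = t then 1 else 0) : ι → ℝ) ∈ V := by
      rw [hV]
      simp only [sub_smul, Finset.sum_sub_distrib, has, ite_smul, one_smul, zero_smul]
      simp
    have h7 := h5 ⟨_, hx⟩
    simp only [hs, hat, haj, if_true, if_neg hjt] at h7
    have h8 : (((-⟨c, hcV⟩ : V) : ι → ℝ)) j = -c j := rfl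
    rw [h8] at h7
    have := hcp j
    linarith
  refine ⟨t, ht, ?_⟩
  have hS : SVec w {i | w i ≠ 0 ∧ i ≠ t} ∅ := by
    refine ⟨fun i => if w i ≠ 0 then (y : ι → ℝ) i else 0, ?_, ?_, ?_⟩
    · refine (Finset.sum_congr rfl fun i _ => ?_).trans ((hV _).1 y.2)
      by_cases h6 : w i ≠ 0
      · simp only [if_pos h6]
      · rw [not_not.1 h6, smul_zero, smul_zero]
    · intro i
      by_cases h6 : w i ≠ 0
      · simp only [if_pos h6, Set.mem_ofPred_eq]
        constructor
        · intro h7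
          refine ⟨h6, ?_⟩
          rintro rfl
          rw [hyt] at h7
          exact lt_irrefl _ h7
        · rintro ⟨-, h7⟩
          exact huniq i h6 h7
      · simp only [if_neg h6, Set.mem_ofPred_eq, lt_irrefl, false_iff]
        exact fun h7 => h6 h7.1
    · intro i
      simp only [Set.mem_empty_iff_false, iff_false, not_lt]
      by_cases h6 : w i ≠ 0
      · rw [if_pos h6]
        exact h1 ⟨i, h6⟩
      · rw [if_neg h6]
  have hsp : sp w ({i | w i ≠ 0 ∧ i ≠ t}) = ⊤ := by
    rw [eq_top_iff, ← hc.span_compl t, sp_le]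
    intro i hi
    by_cases h6 : w i ≠ 0
    · exact mem_sp ⟨h6, hi⟩
    · rw [not_not.1 h6]
      exact zero_mem _
  have h8 := hS.ext (-Pi.single t 1) (by
    rw [Set.union_empty, hsp]
    trivial)
  convert h8 using 1
  · ext i
    simp only [Set.mem_union, Set.mem_ofPred_eq, Set.mem_empty_iff_false, not_false_eq_true, and_true, Pi.neg_apply]
    constructor
    · exact fun h => Or.inl h
    · rintro (h | h)
      · exact h
      · exfalso
        rw [Pi.single_apply] at h
        split_ifs at h <;> norm_num at h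
  · ext i
    simp only [Set.mem_union, Set.mem_ofPred_eq, Set.mem_empty_iff_false, false_or, Set.mem_singleton_iff, Pi.neg_apply]
    constructor
    · rintro rfl
      refine ⟨by simp, fun h => h.2 rfl⟩
    · rintro ⟨h, -⟩
      by_contra hne'
      rw [Pi.single_apply, if_neg hne'] at h
      norm_num at h

/-- the spanning frame lemma -/
theorem exists_spanning_frame (hc : Cosimple v) {X Y : Set ι} (hd : Disjoint X Y) (hX : sp v X = ⊤)
    (hY : sp v Y = ⊤) : ∃ A B : Set ι, SVec v A B ∧ LinearIndepOn ℝ v A ∧ LinearIndepOn ℝ v B ∧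
      sp v A = ⊤ ∧ ∀ i, i ∉ A → v i ∈ sp v B := by
  classical
  -- a signed vector with spanning positive side
  have h0 : ∃ X' Y', SVec v X' Y' ∧ sp v X' = ⊤ := by
    have h1 : ∑ i, (if i ∈ X then (1 : ℝ) else 0) • v i ∈ sp v Y := by rw [hY]; trivial
    obtain ⟨b, hb, hbs⟩ := mem_sp_iff.1 h1
    refine ⟨{i | 0 < (if i ∈ X then (1 : ℝ) else 0) - b i}, {i | (if i ∈ X then (1 : ℝ) else 0) - b i < 0},
      ⟨fun i => (if i ∈ X then (1 : ℝ) else 0) - b i, ?_, fun i => Iff.rfl, fun i => Iff.rfl⟩, ?_⟩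
    · simp only [sub_smul, Finset.sum_sub_distrib, hbs, sub_self]
    · rw [eq_top_iff, ← hX]
      refine sp_mono fun i hi => ?_
      have : b i = 0 := hb i (Set.disjoint_left.1 hd hi)
      simp [hi, this]
  -- choose one with maximal rank of the negative side
  let P : ℕ → Prop := fun n => ∃ X' Y', SVec v X' Y' ∧ sp v X' = ⊤ ∧ finrank ℝ (sp v Y') = n
  have hbd : ∀ n, P n → n ≤ finrank ℝ E := by
    rintro n ⟨X', Y', -, -, rfl⟩
    exact Submodule.finrank_le _
  obtain ⟨X0, Y0, h01, h02⟩ := h0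
  have hP0 : P (finrank ℝ (sp v Y0)) := ⟨X0, Y0, h01, h02, rfl⟩
  obtain ⟨X1, Y1, hXY, hX1, hr⟩ := Nat.findGreatest_spec (P := P) (hbd _ hP0) hP0
  have hmax : ∀ X' Y', SVec v X' Y' → sp v X' = ⊤ → finrank ℝ (sp v Y') ≤ finrank ℝ (sp v Y1) := by
    intro X' Y' h1 h2
    rw [hr]
    exact Nat.le_findGreatest (hbd _ ⟨X', Y', h1, h2, rfl⟩) ⟨X', Y', h1, h2, rfl⟩
  obtain ⟨A, B, hA, hB, hAB, hiA, hiB, hL⟩ := hXY.frame
  have hLL : LL v X1 Y1 = sp v Y1 := by
    unfold LL
    rw [hX1, top_inf_eq]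
  rw [hLL] at hL
  have hBY : sp v B = sp v Y1 := le_antisymm (sp_mono hB) (by rw [← hL]; exact inf_le_right)
  have hBA : sp v B ≤ sp v A := by rw [hBY, ← hL]; exact inf_le_left
  have hU : sp v (A ∪ B) = sp v A := by rw [sp_union, sup_eq_left]; exact hBA
  -- `A` spans
  have hAtop : sp v A = ⊤ := by
    by_contra hne
    set F := sp v A with hF
    set q := F.mkQ with hq
    have hqz : ∀ x, q x = 0 ↔ x ∈ F := fun x => by rw [hq, ← LinearMap.mem_ker, Submodule.ker_mkQ]
    have hcq : Cosimple (q ∘ v) := hc.comp (Submodule.mkQ_surjective _)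
    have hex : ∃ i, (q ∘ v) i ≠ 0 := by
      by_contra hcon
      push Not at hcon
      apply hne
      rw [eq_top_iff, ← hX1, sp_le]
      intro i _
      exact (hqz _).1 (hcon i)
    have hpos : SVec (q ∘ v) Set.univ ∅ := by
      have h1 : SVec (q ∘ v) X1 ∅ := by
        obtain ⟨c, hc0, hc1, hc2⟩ := hXY
        refine ⟨fun i => max (c i) 0, ?_, ?_, ?_⟩
        · have h3 : ∀ i, (max (c i) 0) • (q ∘ v) i = q (c i • v i) := by
            intro i
            rw [map_smul]
            by_cases h4 : c i < 0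
            · have h5 : q (v i) = 0 := (hqz _).2 (hBA (by rw [hBY]; exact mem_sp ((hc2 i).1 h4)))
              rw [Function.comp_apply, h5, smul_zero, smul_zero]
            · rw [max_eq_left (not_lt.1 h4)]
              rfl
          rw [Finset.sum_congr rfl fun i _ => h3 i, ← map_sum, hc0, map_zero]
        · intro i
          rw [← hc1]
          constructor
          · intro h
            rcases lt_max_iff.1 h with h | h
            · exact h
            · exact absurd h (lt_irrefl _)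
          · exact fun h => lt_max_of_lt_left h
        · intro i
          simp
      have h2 := h1.ext (fun i => if i ∈ X1 then 0 else 1) (by
        rw [Set.union_empty, sp_comp, hX1, Submodule.map_top, LinearMap.range_eq_top.2
          (Submodule.mkQ_surjective _)]
        trivial)
      convert h2 using 1
      · ext i
        by_cases hi : i ∈ X1 <;> simp [hi]
      · ext i
        by_cases hi : i ∈ X1 <;> simp [hi]
    obtain ⟨t, ht, hSt⟩ := exists_one_neg hcq hex hpos
    obtain ⟨d, hd0, hd1, hd2⟩ := hSt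
    have hdF : ∑ i, d i • v i ∈ sp v (A ∪ B) := by
      rw [hU, ← hqz, map_sum, ← hd0]
      refine Finset.sum_congr rfl fun i _ => ?_
      rw [map_smul]
      rfl
    have h5 := hAB.ext d hdF
    have htF : v t ∉ F := fun h => ht ((hqz _).2 h)
    have htA : t ∉ A := fun h => htF (mem_sp h)
    have hsub : insert t B ⊆ B ∪ {i | d i < 0 ∧ i ∉ A} := by
      rintro i (rfl | hi)
      · exact Or.inr ⟨(hd2 i).2 rfl, htA⟩
      · exact Or.inl hi
    have htop : sp v (A ∪ {i | 0 < d i ∧ i ∉ B}) = ⊤ := by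
      have h6 : (sp v (A ∪ {i | 0 < d i ∧ i ∉ B})).map q = ⊤ := by
        rw [eq_top_iff, ← hcq.span_compl t, sp_le]
        intro i hi
        by_cases h7 : (q ∘ v) i = 0
        · rw [h7]
          exact zero_mem _
        · refine Submodule.mem_map_of_mem (mem_sp (Or.inr ⟨(hd1 i).2 ⟨h7, hi⟩, fun h8 => h7 ?_⟩))
          exact (hqz _).2 (hBA (mem_sp h8))
      have h7 : F ≤ sp v (A ∪ {i | 0 < d i ∧ i ∉ B}) := by
        rw [hF]
        exact sp_mono Set.subset_union_left
      rw [eq_top_iff]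
      intro x _
      have h8 : q x ∈ (sp v (A ∪ {i | 0 < d i ∧ i ∉ B})).map q := by rw [h6]; trivial
      obtain ⟨z, hz, hzx⟩ := h8
      have h9 : x - z ∈ F := by
        rw [← hqz, map_sub, hzx, sub_self]
      have h10 := Submodule.add_mem _ hz (h7 h9)
      rwa [add_sub_cancel] at h10
    have h6 := hmax _ _ h5 htop
    have h7 : finrank ℝ (sp v (insert t B)) ≤ finrank ℝ (sp v (B ∪ {i | d i < 0 ∧ i ∉ A})) :=
      Submodule.finrank_mono (sp_mono hsub)
    have h8 : finrank ℝ (sp v (insert t B)) = finrank ℝ (sp v B) + 1 :=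
      finrank_sp_insert fun h => htF (hBA h)
    rw [hBY] at h8
    omega
  refine ⟨A, B, hAB, hiA, hiB, hAtop, fun i hi => ?_⟩
  by_contra hcon
  have hiB' : i ∉ B := fun h => hcon (mem_sp h)
  have h5 := (hAB.symm.add (j := i) hiB' hi (by
    rw [Set.union_comm, hU, hAtop]
    trivial)).symm
  have h6 := hmax _ _ h5 hAtop
  have h8 : finrank ℝ (sp v (insert i B)) = finrank ℝ (sp v B) + 1 := finrank_sp_insert hcon
  rw [hBY] at h8
  omega

theorem spanning_frame {m : ℕ} (hc : Cosimple v) (hb : Bdd v m) {X Y : Set ι} (hd : Disjoint X Y)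
    (hX : sp v X = ⊤) (hY : sp v Y = ⊤) :
    ∃ L : Submodule ℝ E, finrank ℝ L ≤ m ∧ LinearIndepOn ℝ v {i | v i ∉ L} := by
  obtain ⟨A, B, hAB, hiA, -, hA, hL⟩ := exists_spanning_frame hc hd hX hY
  refine ⟨sp v B, ?_, hiA.mono fun i hi => ?_⟩
  · have h1 := hb _ _ hAB
    unfold LL at h1
    rwa [hA, top_inf_eq] at h1
  · by_contra hcon
    exact hi (hL i hcon)

end Pool.Agent.H97.DV
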