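import Pool.Agent.H15.FamSmall

/-!
# [V] Flats of small rank and large nullity (MP_19149c_co)

`v` cosimple. There is a full signed vector `(P, N)` with `P` independent, of maximal rank, such that every element of `N`
which is not a coloop of `N` lies in the span of `P`. So if all `LL` have dimension at most `m`, there is a subspace `F` of
dimension at most `m` with `card - dim E - m + dim F ≤ #{i | v i ∈ F}`.
-/

set_option autoImplicit false
set_option linter.unusedSectionVars false

namespace Pool.Agent.H97.DV

open Module Submodule H15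

variable {ι : Type*} [Fintype ι] {E : Type*} [AddCommGroup E] [Module ℝ E]
  [FiniteDimensional ℝ E]
variable {v : ι → E}

/-- the full signed vector `(P, N)` -/
theorem exists_full [Nonempty ι] (hc : Cosimple v) : ∃ P N : Set ι, SVec v P N ∧ P ∪ N = Set.univ ∧
    LinearIndepOn ℝ v P ∧ (∀ X Y, SVec v X Y → finrank ℝ (sp v X) ≤ finrank ℝ (sp v P)) ∧
    ∀ i ∈ N, v i ∈ sp v (N \ {i}) → v i ∈ sp v P := by
  classical
  -- full signed vectors exist: the sets with a full completion
  have hfullc : ∀ X Y, SVec v X Y → ∃ X' Y', SVec v X' Y' ∧ X ⊆ X' ∧ X' ∪ Y' = Set.univ := by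
    intro X Y hXY
    -- extend one element at a time: choose a signed vector above with maximal support
    let P : ℕ → Prop := fun n => ∃ X' Y', SVec v X' Y' ∧ X ⊆ X' ∧ (X' ∪ Y').ncard = n
    have hbd : ∀ n, P n → n ≤ Fintype.card ι := by
      rintro n ⟨X', Y', -, -, rfl⟩
      rw [← Nat.card_eq_fintype_card, ← Set.ncard_univ]
      exact Set.ncard_le_ncard (Set.subset_univ _) (Set.toFinite _)
    have hP0 : P (X ∪ Y).ncard := ⟨X, Y, hXY, subset_rfl, rfl⟩
    obtain ⟨X1, Y1, h1, h2, h3⟩ := Nat.findGreatest_spec (P := P) (hbd _ hP0) hP0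
    refine ⟨X1, Y1, h1, h2, ?_⟩
    by_contra hcon
    obtain ⟨e, he⟩ : ∃ e, e ∉ X1 ∪ Y1 := by
      by_contra h
      push Not at h
      exact hcon (Set.eq_univ_of_forall h)
    -- a dependency which is not zero at `e`
    have h6 : v e ∈ sp v ({e, e}ᶜ) := by rw [hc e e]; trivial
    obtain ⟨a, ha, has⟩ := mem_sp_iff.1 h6
    have hae : a e = 0 := ha e (by simp)
    have hS : SVec v {i | 0 < a i - (if i = e then 1 else 0)}
        {i | a i - (if i = e then 1 else 0) < 0} := by
      refine ⟨fun i => a i - (if i = e then 1 else 0), ?_, fun i => Iff.rfl, fun i => Iff.rfl⟩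
      simp only [sub_smul, Finset.sum_sub_distrib, has, ite_smul, one_smul, zero_smul]
      simp
    have h7 := h1.comp hS
    have h8 : insert e (X1 ∪ Y1) ⊆ (X1 ∪ ({i | 0 < a i - (if i = e then 1 else 0)} \ Y1)) ∪
        (Y1 ∪ ({i | a i - (if i = e then 1 else 0) < 0} \ X1)) := by
      rintro i (rfl | hi | hi)
      · refine Or.inr (Or.inr ⟨?_, fun h => he (Or.inl h)⟩)
        simp [hae]
      · exact Or.inl (Or.inl hi)
      · exact Or.inr (Or.inl hi)
    have h9 : P _ := ⟨_, _, h7, h2.trans Set.subset_union_left, rfl⟩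
    have h10 := Nat.le_findGreatest (hbd _ h9) h9
    have h11 := Set.ncard_le_ncard h8 (Set.toFinite _)
    rw [Set.ncard_insert_of_notMem he] at h11
    rw [← h3] at h10
    omega
  -- maximal rank
  let R : ℕ → Prop := fun n => ∃ X' Y', SVec v X' Y' ∧ X' ∪ Y' = Set.univ ∧
    finrank ℝ (sp v X') = n
  have hbd : ∀ n, R n → n ≤ finrank ℝ E := by
    rintro n ⟨X', Y', -, -, rfl⟩
    exact Submodule.finrank_le _
  obtain ⟨X0, Y0, h01, -, h02⟩ := hfullc ∅ ∅ svec_empty
  have hR0 : R (finrank ℝ (sp v X0)) := ⟨X0, Y0, h01, h02, rfl⟩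
  have hRmax := Nat.findGreatest_spec (P := R) (hbd _ hR0) hR0
  set r := Nat.findGreatest R (finrank ℝ E) with hr
  have hmax : ∀ X Y, SVec v X Y → finrank ℝ (sp v X) ≤ r := by
    intro X Y hXY
    obtain ⟨X', Y', h1, h2, h3⟩ := hfullc X Y hXY
    have h4 : R (finrank ℝ (sp v X')) := ⟨X', Y', h1, h3, rfl⟩
    exact (Submodule.finrank_mono (sp_mono h2)).trans (Nat.le_findGreatest (hbd _ h4) h4)
  -- minimal cardinality
  let Q : ℕ → Prop := fun n => ∃ X' Y', SVec v X' Y' ∧ X' ∪ Y' = Set.univ ∧
    finrank ℝ (sp v X') = r ∧ X'.ncard = n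
  have hQ : ∃ n, Q n := by
    obtain ⟨X', Y', h1, h2, h3⟩ := hRmax
    exact ⟨_, X', Y', h1, h2, h3, rfl⟩
  obtain ⟨P, N, hPN, hU, hrP, hcard⟩ := Nat.find_spec hQ
  have hmin : ∀ X Y, SVec v X Y → X ∪ Y = Set.univ → finrank ℝ (sp v X) = r →
      P.ncard ≤ X.ncard := by
    intro X Y h1 h2 h3
    rw [hcard]
    exact Nat.find_min' hQ ⟨X, Y, h1, h2, h3, rfl⟩
  have hdis := hPN.disjoint
  refine ⟨P, N, hPN, hU, ?_, fun X Y h => by rw [hrP]; exact hmax X Y h, ?_⟩
  · -- `P` is independent
    by_contra hdep
    -- a dependency supported in `P` with a negative value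
    obtain ⟨z, hzP, hz0, hzneg⟩ : ∃ z : ι → ℝ, (∀ i, i ∉ P → z i = 0) ∧ ∑ i, z i • v i = 0 ∧
        ∃ i, z i < 0 := by
      rw [linearIndepOn_iff'] at hdep
      push Not at hdep
      obtain ⟨t, g, ht, hg, i, hit, hgi⟩ := hdep
      have key : ∀ g : ι → ℝ, ∑ i ∈ t, g i • v i = 0 → ∑ i, (if i ∈ t then g i else 0) • v i = 0 := by
        intro g hg
        rw [← hg]
        simp only [ite_smul, zero_smul, Finset.sum_ite_mem, Finset.univ_inter]
      rcases lt_or_gt_of_ne hgi with h | h
      · refine ⟨fun i => if i ∈ t then g i else 0, fun j hj => ?_, key g hg, i, by simp [hit, h]⟩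
        exact if_neg fun h' => hj (ht h')
      · refine ⟨fun i => if i ∈ t then -g i else 0, fun j hj => ?_, key (fun i => -g i) (by
          simp [neg_smul, Finset.sum_neg_distrib, hg]), i, by simp [hit, h]⟩
        exact if_neg fun h' => hj (ht h')
    obtain ⟨c, hc0, hc1, hc2⟩ := hPN
    let Φ : (ι → ℝ) →ₗ[ℝ] E := ∑ i, (LinearMap.proj i : (ι → ℝ) →ₗ[ℝ] ℝ).smulRight (v i)
    have hΦ : ∀ a : ι → ℝ, Φ a = ∑ i, a i • v i := by
      intro a
      simp [Φ, LinearMap.sum_apply]
    let V := LinearMap.ker Φ
    have hV : ∀ a : ι → ℝ, a ∈ V ↔ ∑ i, a i • v i = 0 := by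
      intro a
      rw [LinearMap.mem_ker, hΦ]
    let σ : ι → ℝ := fun i => if i ∈ P then 1 else -1
    have hσ : ∀ i, σ i ≠ 0 := by
      intro i
      by_cases h : i ∈ P <;> simp [σ, h]
    let s : ι → (V →ₗ[ℝ] ℝ) := fun i => σ i • (LinearMap.proj i : (ι → ℝ) →ₗ[ℝ] ℝ).comp V.subtype
    have hs : ∀ (i : ι) (x : V), s i x = σ i * (x : ι → ℝ) i := fun i x => rfl
    have hcV : c ∈ V := (hV c).2 hc0
    have hzV : z ∈ V := (hV z).2 hz0
    have hNc : ∀ i, i ∉ P → i ∈ N := by
      intro i hi
      have : i ∈ P ∪ N := by rw [hU]; trivial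
      exact this.resolve_left hi
    obtain ⟨i0, hi0⟩ := hzneg
    have hi0P : i0 ∈ P := by
      by_contra h
      rw [hzP i0 h] at hi0
      exact lt_irrefl _ hi0
    obtain ⟨y, h1, ⟨t, h2⟩, h3, h4⟩ := exists_exit s ⟨c, hcV⟩ ⟨z, hzV⟩
      (by
        intro i
        rw [hs]
        by_cases h : i ∈ P
        · have := (hc1 i).2 h
          simpa [σ, h] using this
        · have := (hc2 i).2 (hNc i h)
          simpa [σ, h] using this)
      ⟨i0, by rw [hs]; simpa [σ, hi0P] using hi0⟩
    have htz := h3 t h2
    rw [hs] at htz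
    have htP : t ∈ P := by
      by_contra h
      change σ t * z t < 0 at htz
      rw [hzP t h, mul_zero] at htz
      exact lt_irrefl _ htz
    have hztneg : z t < 0 := by
      change σ t * z t < 0 at htz
      simpa [σ, htP] using htz
    have hyt : (y : ι → ℝ) t = 0 := by
      rw [hs] at h2
      exact (mul_eq_zero.1 h2).resolve_left (hσ t)
    have hpos : ∀ j, j ≠ t → 0 < s j y := by
      intro j hjt
      refine lt_of_le_of_ne (h1 j) fun heq => ?_
      have h5 := h4 t j h2 heq.symm
      have h6 : v t ∈ sp v ({t, j}ᶜ) := by rw [hc t j]; trivial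
      obtain ⟨a, ha, has⟩ := mem_sp_iff.1 h6
      have hat : a t = 0 := ha t (by simp)
      have haj : a j = 0 := ha j (by simp)
      have hx : (fun i => a i - (if i = t then 1 else 0) : ι → ℝ) ∈ V := by
        rw [hV]
        simp only [sub_smul, Finset.sum_sub_distrib, has, ite_smul, one_smul, zero_smul]
        simp
      have h7 := h5 ⟨_, hx⟩
      simp only [hs, hat, haj, if_true, if_neg hjt] at h7
      have h8 := h3 j heq.symm
      rw [hs] at h8
      have h9 : σ j * z j < 0 := h8
      have h10 := hσ t
      have h11 : σ t * (0 - 1) * (σ j * z j) = σ j * (0 - 0) * (σ t * z t) := h7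
      have h12 : σ t * (0 - 1) * (σ j * z j) ≠ 0 := by
        refine mul_ne_zero (mul_ne_zero h10 (by norm_num)) h9.ne
      rw [h11] at h12
      simp at h12
    have hS : SVec v (P \ {t}) N := by
      refine ⟨y, (hV _).1 y.2, fun i => ?_, fun i => ?_⟩
      · constructor
        · intro h
          have hit : i ≠ t := by
            rintro rfl
            rw [hyt] at h
            exact lt_irrefl _ h
          refine ⟨?_, hit⟩
          by_contra hiP
          have h5 := hpos i hit
          rw [hs] at h5
          simp only [σ, if_neg hiP] at h5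
          linarith
        · rintro ⟨h, hit⟩
          have h5 := hpos i hit
          rw [hs] at h5
          simpa [σ, h] using h5
      · constructor
        · intro h
          refine hNc i fun hiP => ?_
          have h5 := h1 i
          rw [hs] at h5
          simp only [σ, if_pos hiP] at h5
          linarith
        · intro h
          have hiP : i ∉ P := fun h' => Set.disjoint_left.1 hdis h' h
          have h5 := hpos i (fun h' => hiP (by rw [h']; exact htP))
          rw [hs] at h5
          simp only [σ, if_neg hiP] at h5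
          linarith
    have htN : t ∉ N := Set.disjoint_left.1 hdis htP
    have hS2 := (hS.symm.add (j := t) htN (by simp) (by
      have h5 : ({t, t}ᶜ : Set ι) ⊆ N ∪ P \ {t} := by
        intro i hi
        have hit : i ≠ t := fun h => hi (by simp [h])
        by_cases h : i ∈ P
        · exact Or.inr ⟨h, hit⟩
        · exact Or.inl (hNc i h)
      have h6 := sp_mono (v := v) h5
      rw [hc t t] at h6
      exact h6 trivial)).symm
    have hsp : sp v (P \ {t}) = sp v P := by
      apply le_antisymm (sp_mono Set.sdiff_subset)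
      rw [sp_le]
      intro i hi
      by_cases hit : i = t
      · rw [hit]
        have h5 : v t = ∑ i, (if i = t then 0 else -(z i / z t)) • v i := by
          have h6 : ∑ i, z i • v i = z t • v t + ∑ i, (if i = t then 0 else z i) • v i := by
            have h7 : ∀ i, z i • v i = (if i = t then z t • v t else 0) +
                (if i = t then 0 else z i) • v i := by
              intro i
              by_cases h8 : i = t
              · subst h8; simp
              · simp [h8]
            rw [Finset.sum_congr rfl fun i _ => h7 i, Finset.sum_add_distrib]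
            simp
          rw [hz0] at h6
          have h7 : z t • v t = -∑ i, (if i = t then 0 else z i) • v i :=
            eq_neg_of_add_eq_zero_left h6.symm
          have h8 : v t = (z t)⁻¹ • (z t • v t) := by
            rw [smul_smul, inv_mul_cancel₀ hztneg.ne, one_smul]
          rw [h8, h7, smul_neg, Finset.smul_sum, ← Finset.sum_neg_distrib]
          refine Finset.sum_congr rfl fun i _ => ?_
          by_cases h9 : i = t
          · simp [h9]
          · simp only [h9, if_false, smul_smul]
            rw [← neg_smul]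
            congr 1
            field_simp
        rw [h5]
        refine mem_sp_iff.2 ⟨_, fun j hj => ?_, rfl⟩
        by_cases hjt : j = t
        · simp [hjt]
        · have hjP : j ∉ P := fun h => hj ⟨h, hjt⟩
          simp [hjt, hzP j hjP]
      · exact mem_sp ⟨hi, hit⟩
    have h5 := hmin _ _ hS2 (by
      ext i
      simp only [Set.mem_union, Set.mem_sdiff, Set.mem_singleton_iff, Set.mem_insert_iff,
        Set.mem_univ, iff_true]
      by_cases hit : i = t
      · exact Or.inr (Or.inl hit)
      · by_cases h : i ∈ P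
        · exact Or.inl ⟨h, hit⟩
        · exact Or.inr (Or.inr (hNc i h))) (by rw [hsp, hrP])
    rw [Set.ncard_sdiff_singleton_of_mem htP] at h5
    have h6 : 0 < P.ncard := (Set.ncard_pos (Set.toFinite _)).2 ⟨t, htP⟩
    omega
  · -- the elements of `N` which are not coloops of `N`
    intro e heN he
    obtain ⟨a, ha, has⟩ := mem_sp_iff.1 he
    have hae : a e = 0 := ha e (by simp)
    let y : ι → ℝ := fun i => a i - (if i = e then 1 else 0)
    have hy0 : ∑ i, y i • v i = 0 := by
      simp only [y, sub_smul, Finset.sum_sub_distrib, has, ite_smul, one_smul, zero_smul]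
      simp
    have hye : y e < 0 := by simp [y, hae]
    have hyN : ∀ i, i ∉ N → y i = 0 := by
      intro i hi
      have hie : i ≠ e := fun h => hi (by rw [h]; exact heN)
      simp only [y, if_neg hie]
      rw [ha i (fun h => hi h.1), sub_zero]
    -- the dependency `-y` composed with `(P, N)`
    have hS : SVec v {i | y i < 0} {i | 0 < y i} := by
      refine ⟨fun i => - y i, by simp [neg_smul, Finset.sum_neg_distrib, hy0], fun i => ?_, fun i => ?_⟩
      · simp
      · simp
    have h1 := hS.comp hPN
    have h2 : P ⊆ {i | y i < 0} ∪ P \ {i | 0 < y i} := by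
      intro i hi
      refine Or.inr ⟨hi, fun h => ?_⟩
      have h3 : 0 < y i := h
      rw [hyN i (Set.disjoint_left.1 hdis hi)] at h3
      exact lt_irrefl _ h3
    have h3 := hmax _ _ h1
    by_contra hcon
    have h4 : finrank ℝ (sp v (insert e P)) = finrank ℝ (sp v P) + 1 := finrank_sp_insert hcon
    have h5 : insert e P ⊆ {i | y i < 0} ∪ P \ {i | 0 < y i} := by
      rintro i (rfl | hi)
      · exact Or.inl hye
      · exact h2 hi
    have h6 := Submodule.finrank_mono (sp_mono (v := v) h5)
    omega

/-- coloops add to the rank -/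
theorem finrank_coloops (v : ι → E) {N W : Set ι} (hWN : W ⊆ N)
    (hco : ∀ i ∈ N, i ∉ W → v i ∉ sp v (N \ {i})) :
    finrank ℝ (sp v W) + (N \ W).ncard ≤ finrank ℝ (sp v N) := by
  classical
  have key : ∀ T : Finset ι, (T : Set ι) ⊆ N \ W →
      finrank ℝ (sp v W) + T.card ≤ finrank ℝ (sp v (W ∪ (T : Set ι))) := by
    intro T
    induction T using Finset.induction_on with
    | empty =>
      intro _
      rw [Finset.card_empty, add_zero]
      exact Submodule.finrank_mono (sp_mono Set.subset_union_left)
    | insert a T ha ih =>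
      intro hT
      have h1 := ih (fun i hi => hT (by simp [Finset.mem_coe.1 hi]))
      have haN := hT (show a ∈ ((insert a T : Finset ι) : Set ι) by simp)
      have h2 : v a ∉ sp v (W ∪ (T : Set ι)) := by
        intro h
        refine hco a haN.1 haN.2 (sp_mono ?_ h)
        rintro i (hi | hi)
        · exact ⟨hWN hi, fun h' => haN.2 (by rw [Set.mem_singleton_iff] at h'; rw [← h']; exact hi)⟩
        · refine ⟨(hT (by simp [Finset.mem_coe.1 hi])).1, fun h' => ha ?_⟩
          rw [Set.mem_singleton_iff] at h'
          rw [← h']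
          exact Finset.mem_coe.1 hi
      have h3 := finrank_sp_insert h2
      have h4 : W ∪ ((insert a T : Finset ι) : Set ι) = insert a (W ∪ (T : Set ι)) := by
        rw [Finset.coe_insert, Set.union_insert]
      rw [h4, h3, Finset.card_insert_of_notMem ha]
      omega
  have h0 : (((Set.toFinite (N \ W)).toFinset : Finset ι) : Set ι) = N \ W :=
    (Set.toFinite (N \ W)).coe_toFinset
  have h1 := key (Set.toFinite (N \ W)).toFinset h0.subset
  rw [← Set.ncard_coe_finset, h0] at h1
  refine h1.trans (Submodule.finrank_mono (sp_mono ?_))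
  exact Set.union_subset hWN Set.sdiff_subset

/-- **[V]** a subspace of dimension at most `m` with large nullity -/
theorem exists_flat [Nonempty ι] {m : ℕ} (hc : Cosimple v) (hb : Bdd v m) :
    ∃ F : Submodule ℝ E, finrank ℝ F ≤ m ∧
      Fintype.card ι + finrank ℝ F ≤ finrank ℝ E + m + {i | v i ∈ F}.ncard := by
  classical
  obtain ⟨P, N, hPN, hU, hind, -, hcl⟩ := exists_full hc
  let W : Set ι := {i | i ∈ N ∧ v i ∈ sp v (N \ {i})}
  have hWN : W ⊆ N := fun i hi => hi.1
  have h1 := finrank_coloops v hWN (fun i hi hiW h => hiW ⟨hi, h⟩)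
  have hWP : sp v W ≤ LL v P N := by
    refine le_inf ?_ (sp_mono hWN)
    rw [sp_le]
    exact fun i hi => hcl i hi.1 hi.2
  have h2 := hb _ _ hPN
  have h3 := finrank_LL (v := v) (X := P) (Y := N)
  have htop : sp v (P ∪ N) = ⊤ := by
    obtain ⟨i⟩ := ‹Nonempty ι›
    rw [hU, eq_top_iff, ← hc i i]
    exact sp_mono (Set.subset_univ _)
  rw [htop, finrank_top, finrank_sp_eq hind] at h3
  have h4 : P.ncard + N.ncard = Fintype.card ι := by
    rw [← Set.ncard_union_eq hPN.disjoint, hU, Set.ncard_univ, Nat.card_eq_fintype_card]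
  have h5 : (N \ W).ncard + W.ncard = N.ncard := Set.ncard_sdiff_add_ncard_of_subset hWN
  refine ⟨sp v W, (Submodule.finrank_mono hWP).trans h2, ?_⟩
  have h6 : W.ncard ≤ {i | v i ∈ sp v W}.ncard :=
    Set.ncard_le_ncard (fun i hi => mem_sp hi) (Set.toFinite _)
  omega

end Pool.Agent.H97.DV
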